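import Pool.Agent.N542.PQ.SV

set_option autoImplicit false
set_option maxHeartbeats 4000000

/-! Shifts and differences of smoothly varying functions. -/

namespace Pool.Agent.N542.PC

open Finset Filter Topology
open Pool.Agent.N542.PP (SV fall fall_succ fall_ne)
open Pool.Agent.N542.PQ (growth)

/-- eventually: a condition at infinity holds on unit intervals -/
lemma ev_unit {p : ℝ → Prop} (h : ∀ᶠ t in atTop, p t) (s : ℝ) :
    ∀ᶠ t in atTop, ∀ y, t - s ≤ y → p y := by
  obtain ⟨T, hT⟩ := eventually_atTop.mp h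
  filter_upwards [eventually_ge_atTop (T + s)] with t ht y hy
  exact hT y (by linarith)

/-- shifts of smoothly varying functions are smoothly varying -/
theorem sv_shift {c : ℝ} {F : ℕ → ℝ → ℝ} (h : SV c F) (s : ℝ) : SV c (fun j t => F j (t + s)) := by
  have hs : Tendsto (fun t : ℝ => t + s) atTop atTop := tendsto_atTop_add_const_right _ _ tendsto_id
  refine ⟨hs.eventually h.pos, ?_, ?_⟩
  · intro j
    filter_upwards [hs.eventually (h.der j)] with t ht
    have h1 : HasDerivAt (fun x : ℝ => x + s) 1 t := (hasDerivAt_id t).add_const _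
    have h2 := HasDerivAt.comp t ht h1
    rw [mul_one] at h2
    exact h2
  · intro j
    have h1 := (h.lim j).comp hs
    have h2 : Tendsto (fun t : ℝ => (t / (t + s)) ^ j) atTop (𝓝 1) := by
      have h3 : Tendsto (fun t : ℝ => t / (t + s)) atTop (𝓝 1) := by
        have h4 : Tendsto (fun t : ℝ => 1 - s / (t + s)) atTop (𝓝 (1 - 0)) :=
          tendsto_const_nhds.sub (tendsto_const_nhds.div_atTop hs)
        rw [sub_zero] at h4
        refine h4.congr' ?_
        filter_upwards [hs.eventually (eventually_gt_atTop 0)] with t ht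
        field_simp
        ring
      simpa using h3.pow j
    have h5 := h2.mul h1
    rw [one_mul] at h5
    refine h5.congr' ?_
    filter_upwards [hs.eventually (eventually_gt_atTop 0)] with t ht
    simp only [Function.comp]
    rw [div_pow]
    have : (t + s) ^ j ≠ 0 := by positivity
    field_simp

/-- the ratio of the values at close points -/
lemma ratio_one {c : ℝ} {F : ℕ → ℝ → ℝ} (h : SV c F) (ξ : ℝ → ℝ) (hξ : ∀ t, t ≤ ξ t ∧ ξ t ≤ t + 1) :
    Tendsto (fun t => F 0 (ξ t) / F 0 t) atTop (𝓝 1) := by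
  obtain ⟨T, hT1, hT⟩ := growth h 1 one_pos
  have hr : Tendsto (fun t : ℝ => ξ t / t) atTop (𝓝 1) := by
    have h1 : Tendsto (fun t : ℝ => 1 + 1 / t) atTop (𝓝 (1 + 0)) :=
      tendsto_const_nhds.add (tendsto_const_nhds.div_atTop tendsto_id)
    rw [add_zero] at h1
    refine tendsto_of_tendsto_of_tendsto_of_le_of_le' tendsto_const_nhds h1 ?_ ?_
    · filter_upwards [eventually_gt_atTop 0] with t ht
      rw [le_div_iff₀ ht, one_mul]
      exact (hξ t).1
    · filter_upwards [eventually_gt_atTop 0] with t ht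
      rw [div_le_iff₀ ht]
      have : (1 + 1 / t) * t = t + 1 := by field_simp
      rw [this]
      exact (hξ t).2
  have h1 : Tendsto (fun t : ℝ => (ξ t / t) ^ (c - 1)) atTop (𝓝 1) := by
    have := hr.rpow_const (p := c - 1) (Or.inl one_ne_zero)
    simpa using this
  have h2 : Tendsto (fun t : ℝ => (ξ t / t) ^ (c + 1)) atTop (𝓝 1) := by
    have := hr.rpow_const (p := c + 1) (Or.inl one_ne_zero)
    simpa using this
  refine tendsto_of_tendsto_of_tendsto_of_le_of_le' h1 h2 ?_ ?_
  · filter_upwards [eventually_ge_atTop T] with t ht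
    have ht0 : 0 < t := by linarith
    have hξ0 : 0 < ξ t := by linarith [(hξ t).1]
    obtain ⟨g1, g2, g3⟩ := hT t (ξ t) ht (hξ t).1
    rw [div_le_div_iff₀ (by positivity) (by positivity)] at g3
    rw [Real.div_rpow hξ0.le ht0.le, div_le_div_iff₀ (by positivity) g1]
    linarith
  · filter_upwards [eventually_ge_atTop T] with t ht
    have ht0 : 0 < t := by linarith
    have hξ0 : 0 < ξ t := by linarith [(hξ t).1]
    obtain ⟨g1, g2, g3⟩ := hT t (ξ t) ht (hξ t).1
    rw [div_le_div_iff₀ (by positivity) (by positivity)] at g2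
    rw [Real.div_rpow hξ0.le ht0.le, div_le_div_iff₀ g1 (by positivity)]
    linarith

lemma fall_shift (c : ℝ) (j : ℕ) : fall c (j + 1) = c * fall (c - 1) j := by
  rw [fall, prod_range_succ', fall]
  simp only [Nat.cast_zero, sub_zero]
  rw [mul_comm]
  congr 1
  refine prod_congr rfl fun i _ => ?_
  push_cast
  ring

/-- the differences, up to a sign -/
theorem sv_diff {c : ℝ} {F : ℕ → ℝ → ℝ} (h : SV c F) (hc : c ≠ 0) (ε : ℝ) (hε : ε * c = |c|)
    (hε1 : ε = 1 ∨ ε = -1) : SV (c - 1) (fun j t => ε * (F j (t + 1) - F j t)) := by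
  have hεa : |ε| = 1 := by rcases hε1 with h | h <;> simp [h]
  -- mean value theorem
  have hmv : ∀ j, ∃ ξ : ℝ → ℝ, (∀ t, t ≤ ξ t ∧ ξ t ≤ t + 1) ∧
      ∀ᶠ t in atTop, F j (t + 1) - F j t = F (j + 1) (ξ t) := by
    intro j
    have h1 : ∀ᶠ t in atTop, ∃ y, t ≤ y ∧ y ≤ t + 1 ∧ F j (t + 1) - F j t = F (j + 1) y := by
      filter_upwards [ev_unit (h.der j) 0] with t ht
      obtain ⟨y, hy, hy2⟩ := exists_hasDerivAt_eq_slope (F j) (F (j + 1)) (show t < t + 1 by linarith)
        (fun y hy => (ht y (by linarith [hy.1])).continuousAt.continuousWithinAt)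
        (fun y hy => ht y (by linarith [hy.1]))
      refine ⟨y, hy.1.le, hy.2.le, ?_⟩
      rw [hy2]
      have : t + 1 - t = 1 := by ring
      rw [this, div_one]
    classical
    refine ⟨fun t => if hh : ∃ y, t ≤ y ∧ y ≤ t + 1 ∧ F j (t + 1) - F j t = F (j + 1) y then
      hh.choose else t, ?_, ?_⟩
    · intro t
      simp only
      split_ifs with hh
      · exact ⟨hh.choose_spec.1, hh.choose_spec.2.1⟩
      · exact ⟨le_rfl, by linarith⟩
    · filter_upwards [h1] with t ht
      rw [dif_pos ht]
      exact ht.choose_spec.2.2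
  have hlim : ∀ j, Tendsto (fun t => t ^ (j + 1) * (F j (t + 1) - F j t) / F 0 t) atTop
      (𝓝 (fall c (j + 1))) := by
    intro j
    obtain ⟨ξ, hξ, hξ2⟩ := hmv j
    have hξt : Tendsto ξ atTop atTop := tendsto_atTop_mono (fun t => (hξ t).1) tendsto_id
    have h1 := (h.lim (j + 1)).comp hξt
    have h2 := ratio_one h ξ hξ
    have h3 : Tendsto (fun t : ℝ => (t / ξ t) ^ (j + 1)) atTop (𝓝 1) := by
      have h4 : Tendsto (fun t : ℝ => t / ξ t) atTop (𝓝 1) := by
        have h5 : Tendsto (fun t : ℝ => 1 - 1 / t) atTop (𝓝 (1 - 0)) :=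
          tendsto_const_nhds.sub (tendsto_const_nhds.div_atTop tendsto_id)
        rw [sub_zero] at h5
        refine tendsto_of_tendsto_of_tendsto_of_le_of_le' h5 tendsto_const_nhds ?_ ?_
        · filter_upwards [eventually_gt_atTop 1] with t ht
          have ht0 : 0 < t := by linarith
          have hξ0 : 0 < ξ t := by linarith [(hξ t).1]
          rw [le_div_iff₀ hξ0]
          have h6 : 0 ≤ 1 - 1 / t := by
            rw [sub_nonneg, div_le_one ht0]
            exact ht.le
          calc (1 - 1 / t) * ξ t ≤ (1 - 1 / t) * (t + 1) := by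
                apply mul_le_mul_of_nonneg_left (hξ t).2 h6
            _ = t - 1 / t := by field_simp; ring
            _ ≤ t := by
              have : 0 < 1 / t := by positivity
              linarith
        · filter_upwards [eventually_gt_atTop 0] with t ht
          have hξ0 : 0 < ξ t := by linarith [(hξ t).1]
          rw [div_le_one hξ0]
          exact (hξ t).1
      simpa using h4.pow (j + 1)
    have h5 := (h1.mul h2).mul h3
    rw [mul_one, mul_one] at h5
    refine h5.congr' ?_
    filter_upwards [hξ2, eventually_gt_atTop 0, h.pos, hξt.eventually h.pos] with t ht ht0 hp hp2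
    have hξ0 : 0 < ξ t := by linarith [(hξ t).1]
    simp only [Function.comp]
    rw [ht, div_pow]
    field_simp
  have h0 := hlim 0
  simp only [zero_add, pow_one] at h0
  have hf1 : fall c 1 = c := by simp [fall]
  rw [hf1] at h0
  have hpos : ∀ᶠ t in atTop, 0 < ε * (F 0 (t + 1) - F 0 t) := by
    have h1 := h0.const_mul ε
    rw [hε] at h1
    filter_upwards [h1.eventually_const_lt (abs_pos.mpr hc), eventually_gt_atTop 0, h.pos]
      with t ht ht0 hp
    have e1 : ε * (t * (F 0 (t + 1) - F 0 t) / F 0 t) =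
        (ε * (F 0 (t + 1) - F 0 t)) * (t / F 0 t) := by ring
    rw [e1] at ht
    exact (mul_pos_iff_of_pos_right (by positivity)).mp ht
  refine ⟨hpos, ?_, ?_⟩
  · intro j
    filter_upwards [ev_unit (h.der j) 0] with t ht
    have h1 : HasDerivAt (fun x : ℝ => x + 1) 1 t := (hasDerivAt_id t).add_const _
    have h2 := HasDerivAt.comp t (ht (t + 1) (by linarith)) h1
    rw [mul_one] at h2
    exact (h2.sub (ht t (by linarith))).const_mul ε
  · intro j
    have h1 := (hlim j).div h0 hc
    have e1 : fall c (j + 1) / c = fall (c - 1) j := by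
      rw [fall_shift]
      field_simp
    rw [e1] at h1
    refine h1.congr' ?_
    filter_upwards [eventually_gt_atTop 0, h.pos, hpos] with t ht0 hp hp2
    simp only [Pi.div_apply]
    have hne : F 0 (t + 1) - F 0 t ≠ 0 := by
      intro h3
      rw [h3, mul_zero] at hp2
      exact lt_irrefl _ hp2
    have hεne : ε ≠ 0 := by rcases hε1 with h | h <;> simp [h]
    rw [pow_succ]
    field_simp

/-- iterated differences -/
noncomputable def DF (F : ℕ → ℝ → ℝ) : ℕ → ℕ → ℝ → ℝ
  | 0, j, t => F j t
  | m + 1, j, t => DF F m j (t + 1) - DF F m j t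

theorem sv_iter {c : ℝ} {F : ℕ → ℝ → ℝ} (h : SV c F) (hcn : ∀ n : ℕ, c ≠ n) (m : ℕ) :
    ∃ ε : ℝ, (ε = 1 ∨ ε = -1) ∧ SV (c - m) (fun j t => ε * DF F m j t) := by
  induction m with
  | zero =>
    refine ⟨1, Or.inl rfl, ?_⟩
    simpa [DF] using h
  | succ m ih =>
    obtain ⟨ε, hε, hSV⟩ := ih
    have hc0 : c - m ≠ 0 := sub_ne_zero.mpr (hcn m)
    obtain ⟨s, hs, hs1⟩ := Pool.Agent.N542.PQ.sgn_exists (c - m) hc0
    have h1 := sv_diff hSV hc0 s hs1 hs
    refine ⟨s * ε, ?_, ?_⟩
    · rcases hs with h | h <;> rcases hε with h' | h' <;> simp [h, h']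
    · have e1 : c - ((m + 1 : ℕ) : ℝ) = c - m - 1 := by push_cast; ring
      rw [e1]
      have e2 : (fun (j : ℕ) (t : ℝ) => s * ε * DF F (m + 1) j t) = fun (j : ℕ) (t : ℝ) =>
          s * (ε * DF F m j (t + 1) - ε * DF F m j t) := by
        funext j t
        rw [DF]
        ring
      rw [e2]
      exact h1

/-- Newton's formula -/
theorem newton (F : ℕ → ℝ → ℝ) (j s : ℕ) (t : ℝ) :
    F j (t + s) = ∑ m ∈ range (s + 1), (s.choose m : ℝ) * DF F m j t := by
  have hgen : ∀ (s m : ℕ) (t : ℝ), DF F m j (t + s) =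
      ∑ i ∈ range (s + 1), (s.choose i : ℝ) * DF F (m + i) j t := by
    intro s
    induction s with
    | zero =>
      intro m t
      simp
    | succ s ih =>
      intro m t
      have h1 : DF F m j (t + (s + 1 : ℕ)) = DF F m j (t + s) + DF F (m + 1) j (t + s) := by
        rw [DF]
        push_cast
        rw [← add_assoc]
        ring
      have e1 : ∀ i, DF F (m + 1 + i) j t = DF F (m + (i + 1)) j t := by
        intro i
        congr 1
        ring
      have h2 : ∑ i ∈ range (s + 1), (s.choose i : ℝ) * DF F (m + i) j t =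
          DF F m j t + ∑ k ∈ range (s + 1), (s.choose (k + 1) : ℝ) * DF F (m + (k + 1)) j t := by
        rw [Finset.sum_range_succ' _ s, Finset.sum_range_succ _ s, Nat.choose_succ_self,
          Nat.choose_zero_right]
        push_cast
        rw [add_zero]
        ring
      have h3 : ∑ i ∈ range (s + 1 + 1), ((s + 1).choose i : ℝ) * DF F (m + i) j t =
          DF F m j t + ∑ k ∈ range (s + 1), (s.choose k : ℝ) * DF F (m + (k + 1)) j t +
            ∑ k ∈ range (s + 1), (s.choose (k + 1) : ℝ) * DF F (m + (k + 1)) j t := by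
        rw [Finset.sum_range_succ' _ (s + 1), Nat.choose_zero_right, Nat.cast_one, one_mul,
          add_zero, add_assoc, ← sum_add_distrib, add_comm]
        congr 1
        refine sum_congr rfl fun k _ => ?_
        rw [Nat.choose_succ_succ]
        push_cast
        ring
      rw [h1, ih m t, ih (m + 1) t, h2, h3]
      simp only [e1]
      ring
  have h2 := hgen s 0 t
  simpa [DF] using h2

end Pool.Agent.N542.PC
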