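import Pool.Agent.N542.PC.Shift
import Pool.Agent.N542.PB.Crit
import Pool.Agent.TH915.PW.APCount

set_option autoImplicit false
set_option maxHeartbeats 4000000

/-! Record prime-free neighbourhoods around all the `α_j f_j(p + s) + P_{j,s}(p)`. -/

namespace Pool.Agent.N542.PC

open Finset Filter Topology
open Pool.Agent.H469R2.NK (e norm_e e_add)
open Pool.Agent.N542.PP (SV)
open Pool.Agent.TH915.PW (card_primes)
open Pool.Agent.W147.PS (ff ev_pow)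
open Pool.Agent.N542.PB (many)

theorem consecutive {r : ℕ} (hr : 1 ≤ r) (c u : Fin r → ℝ) (F : Fin r → ℕ → ℝ → ℝ)
    (hSV : ∀ j, SV (c j) (F j)) (hcn : ∀ j, ∀ n : ℕ, c j ≠ n)
    (hinc : ∀ i j, i ≠ j → ∀ n : ℤ, (c i + u i) - (c j + u j) ≠ n)
    (S : Fin r → Finset ℤ) (hSne : ∀ j, (S j).Nonempty)
    (hS : ∀ j, ((S j).card : ℝ) < c j + u j + 1)
    (D d b : ℕ) (hd : 0 < d) (hb : b.Coprime d) (ε : ℝ) (hε : 0 < ε) (hε1 : ε ≤ 1 / 2) :
    ∃ κ δ : ℝ, 0 < κ ∧ 0 < δ ∧ ∀ᶠ Z : ℝ in atTop, ∀ (α : Fin r → ℝ)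
      (P : Fin r → ℤ → Polynomial ℝ),
      (∀ j, Z ^ (u j - δ) ≤ |α j| ∧ |α j| ≤ Z ^ (u j + δ)) → (∀ j s, (P j s).natDegree ≤ D) →
      (∀ j, ∀ s ∈ S j, ∀ n : ℕ, Z < n → (n : ℝ) ≤ (1 + ε) * Z →
        Z ^ ε ≤ α j * F j 0 ((n : ℝ) + s) + (P j s).eval (n : ℝ)) →
      ∃ G : Finset ℕ, Z ^ (1 - ε) ≤ (G.card : ℝ) ∧ ∀ p ∈ G, p.Prime ∧ p ≡ b [MOD d] ∧
        Z < p ∧ (p : ℝ) ≤ (1 + ε) * Z ∧
        ∀ j, ∀ s ∈ S j, ∀ q : ℕ, q.Prime →
          κ * ff Z < |(q : ℝ) - (α j * F j 0 ((p : ℝ) + s) + (P j s).eval (p : ℝ))| := by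
  classical
  obtain ⟨ρ, δ, hρ0, hρ1, hδ, hexp⟩ := exp_shifts hr c u F hSV hcn hinc S hS D ε hε hε1
  -- the index set
  obtain ⟨R, hR1, ⟨E⟩⟩ : ∃ R : ℕ, 1 ≤ R ∧ Nonempty ((Σ j : Fin r, {s // s ∈ S j}) ≃ Fin R) := by
    refine ⟨Fintype.card (Σ j : Fin r, {s // s ∈ S j}), ?_, ⟨Fintype.equivFin _⟩⟩
    rw [Nat.one_le_iff_ne_zero, ← Nat.pos_iff_ne_zero, Fintype.card_pos_iff]
    obtain ⟨s, hs⟩ := hSne ⟨0, hr⟩
    exact ⟨⟨⟨0, hr⟩, ⟨s, hs⟩⟩⟩
  set η : ℝ := min (min (ρ / 8) δ) (min (ε / 8) (1 / 8)) with hη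
  have hη0 : 0 < η := lt_min (lt_min (by positivity) hδ) (lt_min (by positivity) (by norm_num))
  have hηρ : η ≤ ρ / 8 := (min_le_left _ _).trans (min_le_left _ _)
  have hηδ : η ≤ δ := (min_le_left _ _).trans (min_le_right _ _)
  have hηε : η ≤ ε / 8 := (min_le_right _ _).trans (min_le_left _ _)
  set ι : ℝ := min (ρ / 8) (ε / 8) with hι
  have hι0 : 0 < ι := lt_min (by positivity) (by positivity)
  have hι1 : ι ≤ ρ / 8 := min_le_left _ _
  have hι2 : ι ≤ ε / 8 := min_le_right _ _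
  obtain ⟨κ, hκ, hmany⟩ := many R hR1 η hη0 (by linarith)
  refine ⟨κ, δ, hκ, hδ, ?_⟩
  filter_upwards [hexp, hmany, card_primes d hd b hb ε ι hε (by linarith) hι0,
    eventually_ge_atTop (4 : ℝ), ev_pow (1 - ρ) (1 - ι - η) 2 (by linarith),
    ev_pow (1 - ε) (1 - ι - η) 1 (by linarith)]
    with Z hex hmany hcard hZ4 hp1 hp3
  intro α P hα hPD hsize
  have hZ0 : 0 < Z := by linarith
  have hZ1 : 1 ≤ Z := by linarith
  set Q : Finset ℕ := (Ioc ⌊Z⌋₊ ⌊(1 + ε) * Z⌋₊).filter (fun p => p.Prime ∧ p ≡ b [MOD d]) with hQ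
  have hQpos : (0 : ℝ) < Q.card := lt_of_lt_of_le (by positivity) hcard
  have hQne : Q.Nonempty := by
    rw [← Finset.card_pos]
    exact_mod_cast hQpos
  have hQmem : ∀ p ∈ Q, p.Prime ∧ p ≡ b [MOD d] ∧ Z < p ∧ (p : ℝ) ≤ (1 + ε) * Z := by
    intro p hp
    rw [hQ, Finset.mem_filter, Finset.mem_Ioc] at hp
    refine ⟨hp.2.1, hp.2.2, ?_, ?_⟩
    · exact (Nat.floor_lt hZ0.le).mp hp.1.1
    · have h1 : (p : ℝ) ≤ (⌊(1 + ε) * Z⌋₊ : ℕ) := by exact_mod_cast hp.1.2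
      exact h1.trans (Nat.floor_le (by positivity))
  have hm01 : ⌊Z⌋₊ < ⌊(1 + ε) * Z⌋₊ := by
    obtain ⟨p, hp⟩ := hQne
    rw [hQ, Finset.mem_filter, Finset.mem_Ioc] at hp
    omega
  have hQZ : Z ^ (1 - ι - η) ≤ (Q.card : ℝ) * Z ^ (-η) := by
    calc Z ^ (1 - ι - η) = Z ^ (1 - ι) * Z ^ (-η) := by
          rw [← Real.rpow_add hZ0]
          congr 1
      _ ≤ _ := by gcongr
  have hmono : Z ^ η ≤ Z ^ δ := Real.rpow_le_rpow_of_exponent_le hZ1 hηδ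
  set a : ℕ → (Σ j : Fin r, {s // s ∈ S j}) → ℝ := fun p k =>
    α k.1 * F k.1 0 ((p : ℝ) + (k.2 : ℤ)) + (P k.1 k.2).eval (p : ℝ) with ha
  obtain ⟨G, hGQ, hG1, hG2⟩ := hmany ℕ Q (fun p k => a p (E.symm k)) hQne (by
      intro p hp k
      obtain ⟨_, _, h1, h2⟩ := hQmem p hp
      have h5 : Z ^ η ≤ Z ^ ε := Real.rpow_le_rpow_of_exponent_le hZ1 (by linarith)
      exact h5.trans (hsize _ _ (E.symm k).2.2 p h1 h2)) (by
      intro q hq hqZ h hh hhZ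
      set h' : Fin r → ℤ → ℤ := fun j s => if hs : s ∈ S j then h (E ⟨j, ⟨s, hs⟩⟩) else 0 with hh'
      have h1 := hex d b α h' q (∑ k, Polynomial.C ((h k : ℝ) / q) * P (E.symm k).1 (E.symm k).2)
        hd hα hq (hqZ.trans hmono) (by
          obtain ⟨k, hk⟩ : ∃ k, h k ≠ 0 := by
            by_contra hcon
            push Not at hcon
            exact hh (funext hcon)
          refine ⟨(E.symm k).1, (E.symm k).2, (E.symm k).2.2, ?_⟩
          simp only [hh']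
          rw [dif_pos (E.symm k).2.2]
          have : (⟨(E.symm k).1, ⟨((E.symm k).2 : ℤ), (E.symm k).2.2⟩⟩ :
            Σ j : Fin r, {s // s ∈ S j}) = E.symm k := rfl
          rw [this, Equiv.apply_symm_apply]
          exact hk) (by
          intro j s hs
          simp only [hh']
          rw [dif_pos hs]
          exact (hhZ _).trans hmono)
        (Polynomial.natDegree_sum_le_of_forall_le _ _ (fun k _ =>
          (Polynomial.natDegree_C_mul_le _ _).trans (hPD _ _))) hm01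
      refine le_trans (le_of_eq ?_) (h1.trans (hp1.trans hQZ))
      congr 1
      refine sum_congr rfl fun p _ => ?_
      congr 1
      have e1 : ∑ k, (h k : ℝ) * (a p (E.symm k) / q) =
          ∑ k, (h k : ℝ) * α (E.symm k).1 / q * F (E.symm k).1 0 ((p : ℝ) + ((E.symm k).2 : ℤ)) +
          ∑ k, (h k : ℝ) / q * (P (E.symm k).1 (E.symm k).2).eval (p : ℝ) := by
        rw [← sum_add_distrib]
        refine sum_congr rfl fun k _ => ?_
        rw [ha]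
        ring
      rw [e1, Polynomial.eval_finsetSum]
      congr 1
      · have e2 : ∑ k, (h k : ℝ) * α (E.symm k).1 / q *
            F (E.symm k).1 0 ((p : ℝ) + ((E.symm k).2 : ℤ)) =
            ∑ k, (fun x : (Σ j : Fin r, {s // s ∈ S j}) => (h (E x) : ℝ) * α x.1 / q *
            F x.1 0 ((p : ℝ) + (x.2 : ℤ))) (E.symm k) := by
          refine sum_congr rfl fun k _ => ?_
          simp only [Equiv.apply_symm_apply]
        rw [e2, Equiv.sum_comp E.symm (fun x : (Σ j : Fin r, {s // s ∈ S j}) => (h (E x) : ℝ) *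
          α x.1 / q * F x.1 0 ((p : ℝ) + (x.2 : ℤ))), Fintype.sum_sigma]
        refine sum_congr rfl fun j _ => ?_
        rw [← Finset.sum_coe_sort (S j)]
        refine sum_congr rfl fun s _ => ?_
        simp only [hh']
        rw [dif_pos s.2]
      · refine sum_congr rfl fun k _ => ?_
        rw [Polynomial.eval_mul, Polynomial.eval_C])
  refine ⟨G, ?_, ?_⟩
  · linarith
  · intro p hp
    obtain ⟨h1, h2, h3, h4⟩ := hQmem p (hGQ hp)
    refine ⟨h1, h2, h3, h4, ?_⟩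
    intro j s hs q hq
    have h5 := hG2 p hp (E ⟨j, ⟨s, hs⟩⟩) q hq
    rw [Equiv.symm_apply_apply] at h5
    exact h5

end Pool.Agent.N542.PC
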