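import Mathlib

set_option autoImplicit false
set_option maxHeartbeats 4000000

/-! Binomial coefficients at distinct points are linearly independent. -/

namespace Pool.Agent.N542.PC

open Finset

theorem vand (T : Finset ℕ) (h : ℕ → ℤ)
    (hz : ∀ m < T.card, ∑ n ∈ T, h n * (n.choose m : ℤ) = 0) : ∀ n ∈ T, h n = 0 := by
  classical
  set ψ : Fin T.card ≃ T := T.equivFin.symm with hψ
  set v : Fin T.card → ℤ := fun i => ((ψ i : ℕ) : ℤ) with hv
  have hvinj : Function.Injective v := by
    intro a b hab
    simp only [hv, Nat.cast_inj] at hab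
    exact ψ.injective (Subtype.ext hab)
  set M : Matrix (Fin T.card) (Fin T.card) ℤ :=
    Matrix.of (fun i j => ((descPochhammer ℤ j).eval (v i))) with hM
  have hdet : M.det ≠ 0 := by
    rw [hM, ← Matrix.det_eval_matrixOfPolynomials_eq_det_vandermonde v (fun j : Fin T.card =>
      descPochhammer ℤ j) (fun i => descPochhammer_natDegree ℤ i)
      (fun i => monic_descPochhammer ℤ i)]
    exact Matrix.det_vandermonde_ne_zero_iff.mpr hvinj
  have hvm : Matrix.vecMul (fun i : Fin T.card => h (ψ i)) M = 0 := by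
    funext j
    rw [Matrix.vecMul, dotProduct, Pi.zero_apply]
    have h1 : ∀ i : Fin T.card, h (ψ i) * M i j =
        (fun n : T => h n * (((n : ℕ).choose j : ℤ) * ((j : ℕ).factorial : ℤ))) (ψ i) := by
      intro i
      simp only [hM, Matrix.of_apply, hv]
      rw [descPochhammer_eval_eq_descFactorial, Nat.descFactorial_eq_factorial_mul_choose]
      push_cast
      ring
    rw [sum_congr rfl (fun i _ => h1 i), Equiv.sum_comp ψ
      (fun n : T => h n * (((n : ℕ).choose j : ℤ) * ((j : ℕ).factorial : ℤ))),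
      Finset.sum_coe_sort T (fun n : ℕ => h n * ((n.choose j : ℤ) * ((j : ℕ).factorial : ℤ)))]
    have h3 := hz j j.2
    calc ∑ n ∈ T, h n * ((n.choose j : ℤ) * ((j : ℕ).factorial : ℤ)) =
        (∑ n ∈ T, h n * (n.choose j : ℤ)) * ((j : ℕ).factorial : ℤ) := by
          rw [sum_mul]
          exact sum_congr rfl fun n _ => by ring
      _ = 0 := by rw [h3, zero_mul]
  have h0 := Matrix.eq_zero_of_vecMul_eq_zero hdet hvm
  intro n hn
  have := congrFun h0 (ψ.symm ⟨n, hn⟩)
  simpa using this

end Pool.Agent.N542.PC
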