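import Pool.Agent.N542.PC.Diff
import Pool.Agent.N542.PC.Exp
import Pool.Agent.N542.PC.Vand

set_option autoImplicit false
set_option maxHeartbeats 4000000

/-! Exponential sums over primes with the phases `∑ h_{j,s} α_j f_j(p + s)`. -/

namespace Pool.Agent.N542.PC

open Finset Filter Topology
open Pool.Agent.H469R2.NK (e norm_e e_add)
open Pool.Agent.N542.PP (SV)
open Pool.Agent.W147.PS (ev_pow)

theorem exp_shifts {r : ℕ} (hr : 1 ≤ r) (c u : Fin r → ℝ) (F : Fin r → ℕ → ℝ → ℝ)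
    (hSV : ∀ j, SV (c j) (F j)) (hcn : ∀ j, ∀ n : ℕ, c j ≠ n)
    (hinc : ∀ i j, i ≠ j → ∀ n : ℤ, (c i + u i) - (c j + u j) ≠ n)
    (S : Fin r → Finset ℤ) (hS : ∀ j, ((S j).card : ℝ) < c j + u j + 1)
    (D : ℕ) (ε : ℝ) (hε : 0 < ε) (hε1 : ε ≤ 1 / 2) :
    ∃ ρ δ : ℝ, 0 < ρ ∧ ρ ≤ 1 / 8 ∧ 0 < δ ∧ ∀ᶠ Z : ℝ in atTop, ∀ (d b : ℕ) (α : Fin r → ℝ)
      (h : Fin r → ℤ → ℤ) (q : ℕ) (P : Polynomial ℝ), 0 < d →
      (∀ j, Z ^ (u j - δ) ≤ |α j| ∧ |α j| ≤ Z ^ (u j + δ)) → 1 ≤ q → (q : ℝ) ≤ Z ^ δ →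
      (∃ j, ∃ s ∈ S j, h j s ≠ 0) → (∀ j, ∀ s ∈ S j, |(h j s : ℝ)| ≤ Z ^ δ) →
      P.natDegree ≤ D → ⌊Z⌋₊ < ⌊(1 + ε) * Z⌋₊ →
      ‖∑ p ∈ (Ioc ⌊Z⌋₊ ⌊(1 + ε) * Z⌋₊).filter (fun p => p.Prime ∧ p ≡ b [MOD d]),
        e (∑ j, ∑ s ∈ S j, (h j s : ℝ) * α j / q * F j 0 ((p : ℝ) + s) + P.eval (p : ℝ))‖ ≤
        2 * Z ^ (1 - ρ) := by
  classical
  obtain ⟨B, hsB⟩ : ∃ B : ℕ, ∀ j, ∀ s ∈ S j, s.natAbs ≤ B := by
    refine ⟨∑ j, ∑ s ∈ S j, s.natAbs, ?_⟩
    intro j s hs
    calc s.natAbs ≤ ∑ s ∈ S j, s.natAbs := single_le_sum (f := fun s : ℤ => s.natAbs)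
          (fun _ _ => Nat.zero_le _) hs
      _ ≤ _ := single_le_sum (f := fun j => ∑ s ∈ S j, s.natAbs) (fun _ _ => Nat.zero_le _)
          (mem_univ j)
  obtain ⟨M, hM⟩ : ∃ M : ℕ, M = 2 * B := ⟨_, rfl⟩
  have hsM : ∀ j, ∀ s ∈ S j, (s + B).toNat ≤ M ∧ ((s + B).toNat : ℤ) = s + B := by
    intro j s hs
    have := hsB j s hs
    omega
  set F' : Fin r → ℕ → ℝ → ℝ := fun j m t => F j m (t + (-(B : ℝ))) with hF'
  have hSV' : ∀ j, SV (c j) (F' j) := fun j => sv_shift (hSV j) _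
  choose es hes hit using fun (j : Fin r) (m : ℕ) => sv_iter (hSV' j) (hcn j) m
  have hes2 : ∀ j m, es j m * es j m = 1 := by
    intro j m
    rcases hes j m with h | h <;> simp [h]
  have hesa : ∀ j m, |es j m| = 1 := by
    intro j m
    rcases hes j m with h | h <;> simp [h]
  obtain ⟨R, hR1, ⟨E⟩⟩ : ∃ R : ℕ, 1 ≤ R ∧ Nonempty (Fin r × Fin (M + 1) ≃ Fin R) :=
    ⟨r * (M + 1), Nat.mul_pos (by omega) (by omega), ⟨finProdFinEquiv⟩⟩
  obtain ⟨ρ, δ₀, hρ, hρ1, hδ₀, hexp⟩ := exp_primes' hR1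
    (fun x => c (E.symm x).1 - ((E.symm x).2 : ℕ)) (fun x => u (E.symm x).1)
    (fun x j t => es (E.symm x).1 (E.symm x).2 * DF (F' (E.symm x).1) (E.symm x).2 j t)
    (fun x => hit _ _) (by
      intro x n h
      have h1 := hcn (E.symm x).1 (n + ((E.symm x).2 : ℕ))
      apply h1
      push_cast
      linarith) (by
      intro x y hxy
      simp only at hxy
      apply E.symm.injective
      by_cases h1 : (E.symm x).1 = (E.symm y).1
      · rw [h1] at hxy
        have h2 : (((E.symm x).2 : ℕ) : ℝ) = ((E.symm y).2 : ℕ) := by linarith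
        have h3 : ((E.symm x).2 : ℕ) = (E.symm y).2 := by exact_mod_cast h2
        exact Prod.ext h1 (Fin.ext h3)
      · exfalso
        apply hinc _ _ h1 (((E.symm x).2 : ℕ) - ((E.symm y).2 : ℕ))
        push_cast
        linarith) D ε hε hε1
  set K : ℝ := (∑ j, ((S j).card : ℝ)) * 2 ^ M + 1 with hK
  have hK0 : 0 < K := by positivity
  refine ⟨ρ, δ₀ / 2, hρ, hρ1, by positivity, ?_⟩
  filter_upwards [hexp, eventually_ge_atTop (1 : ℝ), ev_pow (δ₀ / 2) δ₀ K (by linarith)]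
    with Z hexp hZ1 hZK
  intro d b α h q P hd hα hq hqZ hh hhZ hP hm
  have hmono : Z ^ (δ₀ / 2) ≤ Z ^ δ₀ := Real.rpow_le_rpow_of_exponent_le hZ1 (by linarith)
  have hZδ : 0 ≤ Z ^ (δ₀ / 2) := by positivity
  -- the new coefficients
  set h' : Fin r → ℕ → ℤ := fun j m => ∑ s ∈ S j, h j s * (((s + B).toNat.choose m : ℕ) : ℤ) with hh'
  have hb' : ∀ j, ∀ m, |(h' j m : ℝ)| ≤ Z ^ δ₀ := by
    intro j m
    rw [hh']
    push_cast
    calc |∑ s ∈ S j, (h j s : ℝ) * (((s + B).toNat.choose m : ℕ) : ℝ)|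
        ≤ ∑ s ∈ S j, |(h j s : ℝ) * (((s + B).toNat.choose m : ℕ) : ℝ)| := abs_sum_le_sum_abs _ _
      _ ≤ ∑ _s ∈ S j, Z ^ (δ₀ / 2) * 2 ^ M := by
          apply sum_le_sum
          intro s hs
          rw [abs_mul, Nat.abs_cast]
          have h1 : (((s + B).toNat.choose m : ℕ) : ℝ) ≤ 2 ^ M := by
            have h2 := Nat.choose_le_two_pow (s + B).toNat m
            have h3 : 2 ^ (s + B).toNat ≤ 2 ^ M := Nat.pow_le_pow_right (by norm_num) (hsM j s hs).1
            exact_mod_cast h2.trans h3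
          exact mul_le_mul (hhZ j s hs) h1 (Nat.cast_nonneg _) hZδ
      _ = ((S j).card : ℝ) * 2 ^ M * Z ^ (δ₀ / 2) := by
          rw [sum_const, nsmul_eq_mul]
          ring
      _ ≤ K * Z ^ (δ₀ / 2) := by
          apply mul_le_mul_of_nonneg_right _ hZδ
          have h1 : ((S j).card : ℝ) ≤ ∑ j, ((S j).card : ℝ) :=
            single_le_sum (f := fun j => ((S j).card : ℝ)) (fun _ _ => Nat.cast_nonneg _) (mem_univ j)
          rw [hK]
          have h2 : ((S j).card : ℝ) * 2 ^ M ≤ (∑ j, ((S j).card : ℝ)) * 2 ^ M := by gcongr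
          linarith
      _ ≤ _ := hZK
  have hnz : ∃ j, ∃ m : ℕ, m ≤ M ∧ h' j m ≠ 0 ∧ (m : ℝ) < c j + u j := by
    obtain ⟨j, s₀, hs₀, hne⟩ := hh
    set T : Finset ℕ := (S j).image (fun s : ℤ => (s + B).toNat) with hT
    have hinj : Set.InjOn (fun s : ℤ => (s + B).toNat) (S j) := by
      intro a ha b hb hab
      have h1 := (hsM j a ha).2
      have h2 := (hsM j b hb).2
      simp only at hab
      rw [hab] at h1
      omega
    have hTc : T.card = (S j).card := Finset.card_image_of_injOn hinj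
    have hTsub : T ⊆ range (M + 1) := by
      intro n hn
      rw [hT, mem_image] at hn
      obtain ⟨s, hs, rfl⟩ := hn
      rw [mem_range]
      have := (hsM j s hs).1
      omega
    have hTM : T.card ≤ M + 1 := by
      have := card_le_card hTsub
      rwa [card_range] at this
    by_contra hcon
    push Not at hcon
    have hz : ∀ m < T.card, ∑ n ∈ T, (fun n : ℕ => h j ((n : ℤ) - B)) n * (n.choose m : ℤ) = 0 := by
      intro m hm'
      have h1 : ∑ n ∈ T, (fun n : ℕ => h j ((n : ℤ) - B)) n * (n.choose m : ℤ) = h' j m := by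
        rw [hT, sum_image (fun a ha b hb hab => hinj ha hb hab), hh']
        refine sum_congr rfl fun s hs => ?_
        simp only
        rw [(hsM j s hs).2]
        congr 2
        ring
      rw [h1]
      by_contra h2
      have h3 := hcon j m (by omega) h2
      have h4 : ((m : ℝ) + 1) ≤ (S j).card := by
        rw [← hTc]
        exact_mod_cast hm'
      linarith [hS j]
    have h5 := vand T (fun n : ℕ => h j ((n : ℤ) - B)) hz ((s₀ + B).toNat) (by
      rw [hT]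
      exact mem_image_of_mem _ hs₀)
    rw [(hsM j s₀ hs₀).2] at h5
    apply hne
    rw [← h5]
    congr 1
    ring
  have hmain := hexp d b (fun x => es (E.symm x).1 (E.symm x).2 * α (E.symm x).1)
    (fun x => h' (E.symm x).1 (E.symm x).2) q P hd (by
      intro x
      rw [abs_mul, hesa, one_mul]
      obtain ⟨a1, a2⟩ := hα (E.symm x).1
      exact ⟨(Real.rpow_le_rpow_of_exponent_le hZ1 (by linarith)).trans a1,
        a2.trans (Real.rpow_le_rpow_of_exponent_le hZ1 (by linarith))⟩) hq (hqZ.trans hmono) (by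
      obtain ⟨j, m, hm1, hm2, hm3⟩ := hnz
      refine ⟨E (j, ⟨m, by omega⟩), ?_, ?_⟩
      · simp only [Equiv.symm_apply_apply]
        exact hm2
      · simp only [Equiv.symm_apply_apply]
        linarith) (fun x => hb' _ _) hP hm
  refine le_trans (le_of_eq ?_) hmain
  congr 1
  refine sum_congr rfl fun p _ => ?_
  congr 2
  rw [Equiv.sum_comp E.symm (fun x : Fin r × Fin (M + 1) => (h' x.1 x.2 : ℝ) *
    (es x.1 x.2 * α x.1) / q * (es x.1 x.2 * DF (F' x.1) x.2 0 (p : ℝ))), Fintype.sum_prod_type]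
  refine sum_congr rfl fun j _ => ?_
  have e1 : ∀ s ∈ S j, F j 0 ((p : ℝ) + s) =
      ∑ m : Fin (M + 1), ((s + B).toNat.choose m : ℝ) * DF (F' j) m 0 (p : ℝ) := by
    intro s hs
    obtain ⟨h1, h2⟩ := hsM j s hs
    have h3 := newton (F' j) 0 (s + B).toNat (p : ℝ)
    have h4 : F' j 0 ((p : ℝ) + (s + B).toNat) = F j 0 ((p : ℝ) + s) := by
      rw [hF']
      simp only
      congr 1
      have h5 : (((s + B).toNat : ℤ) : ℝ) = ((s + B : ℤ) : ℝ) := by rw [h2]
      push_cast at h5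
      rw [h5]
      ring
    rw [← h4, h3, Fin.sum_univ_eq_sum_range (fun m => ((s + B).toNat.choose m : ℝ) *
      DF (F' j) m 0 (p : ℝ)) (M + 1)]
    apply sum_subset (range_subset_range.mpr (by omega))
    intro m _ hm'
    rw [mem_range, not_lt] at hm'
    rw [Nat.choose_eq_zero_of_lt (by omega), Nat.cast_zero, zero_mul]
  calc ∑ s ∈ S j, (h j s : ℝ) * α j / q * F j 0 ((p : ℝ) + s)
      = ∑ s ∈ S j, ∑ m : Fin (M + 1), (h j s : ℝ) * α j / q *
          (((s + B).toNat.choose m : ℝ) * DF (F' j) m 0 (p : ℝ)) := by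
        refine sum_congr rfl fun s hs => ?_
        rw [e1 s hs, mul_sum]
    _ = ∑ m : Fin (M + 1), ∑ s ∈ S j, (h j s : ℝ) * α j / q *
          (((s + B).toNat.choose m : ℝ) * DF (F' j) m 0 (p : ℝ)) := sum_comm
    _ = _ := by
        refine sum_congr rfl fun m _ => ?_
        simp only [hh']
        push_cast
        rw [sum_mul, sum_div, sum_mul]
        refine sum_congr rfl fun s _ => ?_
        have := hes2 j m
        calc (h j s : ℝ) * α j / q * (((s + B).toNat.choose m : ℝ) * DF (F' j) m 0 (p : ℝ))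
            = (es j m * es j m) * ((h j s : ℝ) * α j / q *
              (((s + B).toNat.choose m : ℝ) * DF (F' j) m 0 (p : ℝ))) := by rw [this, one_mul]
          _ = _ := by ring

end Pool.Agent.N542.PC
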